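import Mathlib
import Pool.Agent.Q288.CEC.Final

/-! # Large-conversion asymptotics of the critical rate of chase-escape with conversion on `ℤ²` -/

set_option autoImplicit false

namespace Pool.Agent.Results.MP_3523e7_pr.RatioConverges

open MeasureTheory Filter Topology Q288.CEC

/-- There is a constant `C > 0` with `C α ≤ λ_c(α) ≤ C (α + 4)` for all `α > 0`; in particular
`λ_c(α) / α → C` as `α → ∞`. (The first part records that the process does not explode, so that
its jump chain, on which `X` is read off, describes it for all times.) -/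
theorem result :
    (∀ lam al : ℝ, 0 < lam → 0 < al →
      ∀ᵐ ω ∂(ceLaw lam al), Tendsto (fun k => (ω k).2) atTop atTop) ∧
    ∃ C : ℝ, 0 < C ∧ (∀ al : ℝ, 0 < al → C * al ≤ lamc al ∧ lamc al ≤ C * (al + 4)) ∧
      Tendsto (fun al : ℝ => lamc al / al) atTop (𝓝 C) :=
  ⟨fun _ _ _ hal => no_explosion hal, sSup Zset, muc_pos, fun _ hal => lamc_bounds hal, lamc_limit⟩

end Pool.Agent.Results.MP_3523e7_pr.RatioConverges
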